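import Pool.Agent.SGD.Stmts

/-!
# SGD, row DP2: a set of pairs without crossings is a set of edges for some depths
-/

noncomputable section

namespace Pool.Agent.SGD.H66

open Pool.Agent.SGE Pool.Agent.SGP Pool.Agent.SGY Pool.Agent.SGD

open Classical in
/-- the pairs over the position `l` -/
def ov (k : ℕ) (R : ℕ → ℕ → Prop) (l : ℕ) : Finset (ℕ × ℕ) :=
  (Finset.range (k + 2) ×ˢ Finset.range (k + 2)).filter
    (fun p => p.1 < l ∧ l < p.2 ∧ R p.1 p.2)

theorem mem_ov {k : ℕ} {R : ℕ → ℕ → Prop} {l : ℕ} {p : ℕ × ℕ} :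
    p ∈ ov k R l ↔ p.2 ≤ k + 1 ∧ p.1 < l ∧ l < p.2 ∧ R p.1 p.2 := by
  unfold ov
  simp only [Finset.mem_filter, Finset.mem_product, Finset.mem_range]
  constructor
  · rintro ⟨⟨h1, h2⟩, h4, h5, h6⟩
    exact ⟨by omega, h4, h5, h6⟩
  · rintro ⟨h1, h3, h4, h5⟩
    exact ⟨⟨by omega, by omega⟩, h3, h4, h5⟩

theorem dp2 : Dp2Stmt := by
  intro k R hR
  refine ⟨fun l => (ov k R l).card, ?_⟩
  intro i j hij hj hr l hil hlj
  constructor
  · intro _
    show (ov k R i).card < (ov k R l).card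
    apply Finset.card_lt_card
    rw [Finset.ssubset_iff_of_subset]
    · refine ⟨(i, j), ?_, ?_⟩
      · rw [mem_ov]
        exact ⟨hj, hil, hlj, hr⟩
      · rw [mem_ov]
        rintro ⟨_, h, _⟩
        exact absurd h (lt_irrefl _)
    · rintro ⟨x, y⟩ hp
      rw [mem_ov] at hp ⊢
      obtain ⟨h1, h3, h4, h5⟩ := hp
      refine ⟨h1, lt_trans h3 hil, ?_, h5⟩
      by_contra hc
      have hc' : y < j := lt_of_le_of_lt (not_lt.mp hc) hlj
      exact hR x i y j h3 h4 hc' hj ⟨h5, hr⟩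
  · intro _
    show (ov k R j).card < (ov k R l).card
    apply Finset.card_lt_card
    rw [Finset.ssubset_iff_of_subset]
    · refine ⟨(i, j), ?_, ?_⟩
      · rw [mem_ov]
        exact ⟨hj, hil, hlj, hr⟩
      · rw [mem_ov]
        rintro ⟨_, _, h, _⟩
        exact absurd h (lt_irrefl _)
    · rintro ⟨x, y⟩ hp
      rw [mem_ov] at hp ⊢
      obtain ⟨h1, h3, h4, h5⟩ := hp
      refine ⟨h1, ?_, lt_trans hlj h4, h5⟩
      by_contra hc
      have hc' : i < x := lt_of_lt_of_le hil (not_lt.mp hc)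
      exact hR i x j y hc' h3 h4 h1 ⟨hr, h5⟩

end Pool.Agent.SGD.H66
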